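import Mathlib

/-!
Fourier analysis on the cube `Fin n → ℤˣ`: inversion, Parseval, discrete derivatives,
Bonami's inequality and the consequence comparing the noisy energy with the first two norms.
-/

set_option autoImplicit false

namespace Pool.Agent.H72x.AA

open Finset

variable {n : ℕ}

/-- real value of a sign -/
def sv (u : ℤˣ) : ℝ := ((u : ℤ) : ℝ)

@[simp] theorem sv_one : sv 1 = 1 := by simp [sv]
@[simp] theorem sv_neg_one : sv (-1) = -1 := by simp [sv]

theorem sv_neg (u : ℤˣ) : sv (-u) = - sv u := by simp [sv]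

theorem sv_cases (u : ℤˣ) : u = 1 ∨ u = -1 := Int.units_eq_one_or u

theorem sv_mul_self (u : ℤˣ) : sv u * sv u = 1 := by
  rcases sv_cases u with h | h <;> simp [h]

theorem sv_sq (u : ℤˣ) : sv u ^ 2 = 1 := by rw [sq, sv_mul_self]

/-- character -/
def chi (S : Finset (Fin n)) (x : Fin n → ℤˣ) : ℝ := ∏ i ∈ S, sv (x i)

theorem chi_empty (x : Fin n → ℤˣ) : chi ∅ x = 1 := by simp [chi]

theorem chi_mul_self (S : Finset (Fin n)) (x : Fin n → ℤˣ) : chi S x * chi S x = 1 := by
  simp only [chi, ← Finset.prod_mul_distrib, sv_mul_self, Finset.prod_const_one]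

/-- average over the cube -/
noncomputable def av (g : (Fin n → ℤˣ) → ℝ) : ℝ := (∑ x, g x) / 2 ^ n

theorem av_mono {g h : (Fin n → ℤˣ) → ℝ} (H : ∀ x, g x ≤ h x) : av g ≤ av h := by
  unfold av
  gcongr
  exact H _

theorem av_nonneg {g : (Fin n → ℤˣ) → ℝ} (H : ∀ x, 0 ≤ g x) : 0 ≤ av g :=
  div_nonneg (Finset.sum_nonneg fun x _ => H x) (by positivity)

theorem av_add (g h : (Fin n → ℤˣ) → ℝ) : av (fun x => g x + h x) = av g + av h := by
  unfold av; rw [Finset.sum_add_distrib, add_div]

theorem av_mul (c : ℝ) (g : (Fin n → ℤˣ) → ℝ) : av (fun x => c * g x) = c * av g := by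
  unfold av; rw [← Finset.mul_sum, mul_div_assoc]

theorem av_sum {ι : Type*} (s : Finset ι) (g : ι → (Fin n → ℤˣ) → ℝ) :
    av (fun x => ∑ i ∈ s, g i x) = ∑ i ∈ s, av (g i) := by
  unfold av
  rw [Finset.sum_comm, Finset.sum_div]

theorem card_cube : (Fintype.card (Fin n → ℤˣ) : ℝ) = 2 ^ n := by
  simp

theorem av_const (c : ℝ) : av (fun _ : Fin n → ℤˣ => c) = c := by
  unfold av
  rw [Finset.sum_const, Finset.card_univ, nsmul_eq_mul, card_cube]
  field_simp

theorem av_cs (g h : (Fin n → ℤˣ) → ℝ) :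
    av (fun x => g x * h x) ^ 2 ≤ av (fun x => g x ^ 2) * av (fun x => h x ^ 2) := by
  unfold av
  have := Finset.sum_mul_sq_le_sq_mul_sq Finset.univ g h
  rw [div_pow, div_mul_div_comm, ← sq]
  gcongr

theorem sum_prod_cube (f : Fin n → ℤˣ → ℝ) :
    ∑ x : Fin n → ℤˣ, ∏ i, f i (x i) = ∏ i, (f i 1 + f i (-1)) := by
  have h := Finset.prod_univ_sum (fun _ : Fin n => (Finset.univ : Finset ℤˣ)) f
  rw [Fintype.piFinset_univ] at h
  rw [← h]
  exact Finset.prod_congr rfl fun i _ => by simp [UnitsInt.univ]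

theorem chi_univ (S : Finset (Fin n)) (x : Fin n → ℤˣ) :
    chi S x = ∏ i, (if i ∈ S then sv (x i) else 1) := by
  rw [chi, Finset.prod_ite_mem, Finset.univ_inter]

/-- the average of a character against a product -/
theorem sum_chi_prod (S : Finset (Fin n)) (y : Fin n → ℝ) :
    ∑ x : Fin n → ℤˣ, chi S x * ∏ i, ((1 + sv (x i) * y i) / 2) = ∏ i ∈ S, y i := by
  have h1 : ∀ x : Fin n → ℤˣ, chi S x * ∏ i, ((1 + sv (x i) * y i) / 2) =
      ∏ i, ((if i ∈ S then sv (x i) else 1) * ((1 + sv (x i) * y i) / 2)) := by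
    intro x
    rw [chi_univ, ← Finset.prod_mul_distrib]
  simp only [h1]
  rw [sum_prod_cube (fun i u => (if i ∈ S then sv u else 1) * ((1 + sv u * y i) / 2))]
  have h2 : ∀ i : Fin n, ((if i ∈ S then sv 1 else 1) * ((1 + sv 1 * y i) / 2) +
      (if i ∈ S then sv (-1) else 1) * ((1 + sv (-1) * y i) / 2)) = if i ∈ S then y i else 1 := by
    intro i
    by_cases hi : i ∈ S
    · simp [hi]; ring
    · simp [hi]; ring
  simp only [h2]
  rw [Finset.prod_ite_mem, Finset.univ_inter]

theorem sum_chi_chi (x y : Fin n → ℤˣ) :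
    ∑ S : Finset (Fin n), chi S x * chi S y = if x = y then (2 : ℝ) ^ n else 0 := by
  have h1 : ∀ S : Finset (Fin n), chi S x * chi S y = ∏ i ∈ S, (sv (x i) * sv (y i)) := by
    intro S
    rw [chi, chi, ← Finset.prod_mul_distrib]
  simp only [h1]
  have h2 : ∑ S : Finset (Fin n), ∏ i ∈ S, (sv (x i) * sv (y i)) =
      ∏ i, (1 + sv (x i) * sv (y i)) := by
    rw [Finset.prod_one_add]
    rw [Finset.powerset_univ]
  rw [h2]
  by_cases h : x = y
  · subst h
    rw [if_pos rfl]
    have : ∀ i, (1 + sv (x i) * sv (x i) : ℝ) = 2 := by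
      intro i; rw [sv_mul_self]; norm_num
    simp only [this]
    simp
  · rw [if_neg h]
    have : ∃ i, ¬ (x i = y i) := by
      by_contra hcon
      push Not at hcon
      exact h (funext hcon)
    obtain ⟨i, hi⟩ := this
    apply Finset.prod_eq_zero (Finset.mem_univ i)
    rcases sv_cases (x i) with hx | hx <;> rcases sv_cases (y i) with hy | hy <;>
      rw [hx, hy] at hi ⊢ <;> simp at hi ⊢

/-- Fourier coefficient -/
noncomputable def fc (f : (Fin n → ℤˣ) → ℝ) (S : Finset (Fin n)) : ℝ :=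
  av (fun x => f x * chi S x)

theorem fc_inv (f : (Fin n → ℤˣ) → ℝ) (x : Fin n → ℤˣ) : f x = ∑ S, fc f S * chi S x := by
  have h : ∑ S, fc f S * chi S x = (∑ S : Finset (Fin n), ∑ y, f y * (chi S y * chi S x)) /
      2 ^ n := by
    rw [Finset.sum_div]
    refine Finset.sum_congr rfl fun S _ => ?_
    rw [fc, av, div_mul_eq_mul_div, Finset.sum_mul]
    congr 1
    exact Finset.sum_congr rfl fun y _ => by ring
  rw [h, Finset.sum_comm]
  have h2 : ∀ y, ∑ S : Finset (Fin n), f y * (chi S y * chi S x) =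
      f y * (if y = x then (2 : ℝ) ^ n else 0) := by
    intro y
    rw [← Finset.mul_sum, sum_chi_chi]
  simp only [h2]
  simp

/-- Parseval -/
theorem parseval (f : (Fin n → ℤˣ) → ℝ) : av (fun x => f x ^ 2) = ∑ S, fc f S ^ 2 := by
  have h : ∀ x, f x ^ 2 = ∑ S, fc f S * (f x * chi S x) := by
    intro x
    have h0 := fc_inv f x
    calc f x ^ 2 = f x * ∑ S, fc f S * chi S x := by rw [← h0]; ring
      _ = _ := by
        rw [Finset.mul_sum]
        exact Finset.sum_congr rfl fun S _ => by ring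
  simp only [h]
  rw [av_sum]
  refine Finset.sum_congr rfl fun S _ => ?_
  rw [av_mul, sq, fc]

/-- orthogonality of characters -/
theorem av_chi_chi (S T : Finset (Fin n)) :
    av (fun x => chi S x * chi T x) = if S = T then 1 else 0 := by
  have h1 : ∀ x : Fin n → ℤˣ, chi S x * chi T x =
      ∏ i, ((if i ∈ S then sv (x i) else 1) * (if i ∈ T then sv (x i) else 1)) := by
    intro x
    rw [chi_univ, chi_univ, ← Finset.prod_mul_distrib]
  simp only [h1]
  rw [av, sum_prod_cube (fun i b => (if i ∈ S then sv b else 1) * (if i ∈ T then sv b else 1))]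
  by_cases h : S = T
  · subst h
    rw [if_pos rfl]
    have : ∀ i : Fin n, ((if i ∈ S then sv 1 else 1) * (if i ∈ S then sv 1 else 1) +
        (if i ∈ S then sv (-1) else 1) * (if i ∈ S then sv (-1) else 1) : ℝ) = 2 := by
      intro i
      by_cases hi : i ∈ S <;> simp [hi] <;> norm_num
    simp only [this]
    simp
  · rw [if_neg h]
    have : ∃ i, ¬ (i ∈ S ↔ i ∈ T) := by
      by_contra hcon
      push Not at hcon
      exact h (Finset.ext hcon)
    obtain ⟨i, hi⟩ := this
    rw [Finset.prod_eq_zero (Finset.mem_univ i), zero_div]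
    by_cases h1 : i ∈ S <;> by_cases h2 : i ∈ T <;> simp [h1, h2] at hi ⊢

theorem fc_poly (a : Finset (Fin n) → ℝ) (T : Finset (Fin n)) :
    fc (fun x => ∑ S, a S * chi S x) T = a T := by
  unfold fc
  have h : ∀ x : Fin n → ℤˣ, (∑ S, a S * chi S x) * chi T x = ∑ S, a S * (chi S x * chi T x) := by
    intro x
    rw [Finset.sum_mul]
    exact Finset.sum_congr rfl fun S _ => by ring
  simp only [h]
  rw [av_sum]
  simp only [av_mul, av_chi_chi]
  simp

/-- `av (g h)` for `h` a polynomial -/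
theorem av_mul_poly (g : (Fin n → ℤˣ) → ℝ) (b : Finset (Fin n) → ℝ) :
    av (fun x => g x * ∑ S, b S * chi S x) = ∑ S, fc g S * b S := by
  have h : ∀ x : Fin n → ℤˣ, g x * (∑ S, b S * chi S x) = ∑ S, b S * (g x * chi S x) := by
    intro x
    rw [Finset.mul_sum]
    exact Finset.sum_congr rfl fun S _ => by ring
  simp only [h]
  rw [av_sum]
  refine Finset.sum_congr rfl fun S _ => ?_
  rw [av_mul, fc, mul_comm]

/-- discrete derivative -/
noncomputable def dd (j : Fin n) (f : (Fin n → ℤˣ) → ℝ) (x : Fin n → ℤˣ) : ℝ :=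
  (f (Function.update x j 1) - f (Function.update x j (-1))) / 2

theorem chi_update_of_notMem {S : Finset (Fin n)} {j : Fin n} (hj : j ∉ S) (x : Fin n → ℤˣ)
    (u : ℤˣ) : chi S (Function.update x j u) = chi S x := by
  unfold chi
  refine Finset.prod_congr rfl fun i hi => ?_
  rw [Function.update_of_ne]
  rintro rfl
  exact hj hi

theorem chi_insert {S : Finset (Fin n)} {j : Fin n} (hj : j ∉ S) (x : Fin n → ℤˣ) :
    chi (insert j S) x = sv (x j) * chi S x := by
  unfold chi
  rw [Finset.prod_insert hj]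

theorem chi_update_of_mem {S : Finset (Fin n)} {j : Fin n} (hj : j ∈ S) (x : Fin n → ℤˣ)
    (u : ℤˣ) : chi S (Function.update x j u) = sv u * chi (S.erase j) x := by
  conv_lhs => rw [← Finset.insert_erase hj]
  rw [chi_insert (Finset.notMem_erase j S), chi_update_of_notMem (Finset.notMem_erase j S)]
  simp

/-- coefficients of the derivative -/
noncomputable def dcoef (j : Fin n) (f : (Fin n → ℤˣ) → ℝ) (S : Finset (Fin n)) : ℝ :=
  if j ∈ S then 0 else fc f (insert j S)

theorem dd_eq (j : Fin n) (f : (Fin n → ℤˣ) → ℝ) (x : Fin n → ℤˣ) :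
    dd j f x = ∑ S, if j ∈ S then fc f S * chi (S.erase j) x else 0 := by
  unfold dd
  rw [fc_inv f (Function.update x j 1), fc_inv f (Function.update x j (-1)),
    ← Finset.sum_sub_distrib, Finset.sum_div]
  refine Finset.sum_congr rfl fun S _ => ?_
  by_cases hj : j ∈ S
  · rw [if_pos hj, chi_update_of_mem hj, chi_update_of_mem hj, sv_one, sv_neg_one]
    ring
  · rw [if_neg hj, chi_update_of_notMem hj, chi_update_of_notMem hj]
    ring

theorem sum_erase_insert (j : Fin n) (F : Finset (Fin n) → Finset (Fin n) → ℝ) :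
    (∑ S, if j ∈ S then F S (S.erase j) else 0) = ∑ S, if j ∈ S then 0 else F (insert j S) S := by
  have h2 : (∑ S, if j ∈ S then 0 else F (insert j S) S) =
      ∑ S, if j ∉ S then F (insert j S) S else 0 := by
    refine Finset.sum_congr rfl fun S _ => ?_
    by_cases h : j ∈ S <;> simp [h]
  rw [h2, ← Finset.sum_filter, ← Finset.sum_filter]
  refine Finset.sum_nbij' (fun S => S.erase j) (fun S => insert j S) ?_ ?_ ?_ ?_ ?_
  · intro S hS; simp
  · intro S hS; simp
  · intro S hS
    exact Finset.insert_erase (Finset.mem_filter.1 hS).2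
  · intro S hS
    exact Finset.erase_insert (Finset.mem_filter.1 hS).2
  · intro S hS
    rw [Finset.insert_erase (Finset.mem_filter.1 hS).2]

/-- the derivative as a polynomial -/
theorem dd_poly (j : Fin n) (f : (Fin n → ℤˣ) → ℝ) :
    dd j f = fun x => ∑ S, dcoef j f S * chi S x := by
  funext x
  rw [dd_eq, sum_erase_insert j (fun S T => fc f S * chi T x)]
  refine Finset.sum_congr rfl fun S _ => ?_
  unfold dcoef
  by_cases h : j ∈ S <;> simp [h]

theorem fc_dd (j : Fin n) (f : (Fin n → ℤˣ) → ℝ) (S : Finset (Fin n)) :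
    fc (dd j f) S = dcoef j f S := by
  rw [dd_poly, fc_poly]

/-- noisy energy of the derivative -/
theorem sum_dd (j : Fin n) (f : (Fin n → ℤˣ) → ℝ) (w : ℕ → ℝ) :
    ∑ S, w S.card * fc (dd j f) S ^ 2 =
      ∑ S, if j ∈ S then w (S.card - 1) * fc f S ^ 2 else 0 := by
  have h1 : ∀ S : Finset (Fin n), (if j ∈ S then w (S.card - 1) * fc f S ^ 2 else 0) =
      if j ∈ S then (fun S T : Finset (Fin n) => w T.card * fc f S ^ 2) S (S.erase j) else 0 := by
    intro S
    by_cases h : j ∈ S
    · simp only [h, if_true]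
      rw [Finset.card_erase_of_mem h]
    · simp [h]
  simp only [h1]
  rw [sum_erase_insert j (fun S T : Finset (Fin n) => w T.card * fc f S ^ 2)]
  refine Finset.sum_congr rfl fun S _ => ?_
  rw [fc_dd]
  unfold dcoef
  by_cases h : j ∈ S <;> simp [h]

theorem sum_sum_dd (f : (Fin n → ℤˣ) → ℝ) (w : ℕ → ℝ) :
    ∑ j, ∑ S, w S.card * fc (dd j f) S ^ 2 =
      ∑ S : Finset (Fin n), (S.card : ℝ) * w (S.card - 1) * fc f S ^ 2 := by
  simp only [sum_dd]
  rw [Finset.sum_comm]
  refine Finset.sum_congr rfl fun S _ => ?_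
  rw [Finset.sum_ite_mem, Finset.univ_inter, Finset.sum_const, nsmul_eq_mul]
  ring

end Pool.Agent.H72x.AA
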