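import Mathlib

/-!
Definitions for MP_f992e4_an: Fourier coefficients, variance, influences, sup norm, degree.
-/

set_option autoImplicit false

namespace Pool.Agent.H72x.AAD

/-- Fourier coefficient. -/
noncomputable def coeff {n : ℕ} (f : (Fin n → ℤˣ) → ℝ) (S : Finset (Fin n)) : ℝ :=
  (∑ x : Fin n → ℤˣ, f x * ∏ i ∈ S, ((x i : ℤ) : ℝ)) / (2 : ℝ) ^ n

/-- Variance. -/
noncomputable def variance {n : ℕ} (f : (Fin n → ℤˣ) → ℝ) : ℝ :=
  (∑ x : Fin n → ℤˣ, f x ^ 2) / (2 : ℝ) ^ n - ((∑ x : Fin n → ℤˣ, f x) / (2 : ℝ) ^ n) ^ 2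

/-- Influence of a coordinate. -/
noncomputable def infl {n : ℕ} (f : (Fin n → ℤˣ) → ℝ) (j : Fin n) : ℝ :=
  (∑ x : Fin n → ℤˣ, ((f (Function.update x j 1) - f (Function.update x j (-1))) / 2) ^ 2)
    / (2 : ℝ) ^ n

/-- Sup norm. -/
noncomputable def supNorm {n : ℕ} (f : (Fin n → ℤˣ) → ℝ) : ℝ := ⨆ x : Fin n → ℤˣ, |f x|

/-- The largest `L²` norm of a discrete derivative. -/
noncomputable def maxDer {n : ℕ} (f : (Fin n → ℤˣ) → ℝ) : ℝ :=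
  ⨆ j : Fin n, Real.sqrt (infl f j)

/-- Degree at most `d`. -/
def DegLE {n : ℕ} (f : (Fin n → ℤˣ) → ℝ) (d : ℕ) : Prop :=
  ∀ S : Finset (Fin n), d < S.card → coeff f S = 0

end Pool.Agent.H72x.AAD
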