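import Mathlib
import Pool.Agent.H72x.AA.Cube

/-!
Bonami's inequality on `Fin n → ℤˣ` and its dual form comparing the noisy second moment with the
product of the first and the second norm.
-/

set_option autoImplicit false

namespace Pool.Agent.H72x.AA

open Finset

variable {n : ℕ}

/-- scaled polynomial supported on the subsets of `B` -/
noncomputable def wp (r : ℝ) (c : Finset (Fin n) → ℝ) (B : Finset (Fin n)) (x : Fin n → ℤˣ) : ℝ :=
  ∑ S ∈ B.powerset, r ^ S.card * c S * chi S x

theorem wp_insert (r : ℝ) (c : Finset (Fin n) → ℝ) (B : Finset (Fin n)) (x : Fin n → ℤˣ)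
    (b : Fin n) (hb : b ∉ B) :
    wp r c (insert b B) x =
      wp r c B x + r * (sv (x b) * wp r (fun S => c (insert b S)) B x) := by
  unfold wp
  rw [Finset.sum_powerset_insert hb, Finset.mul_sum, Finset.mul_sum]
  congr 1
  refine Finset.sum_congr rfl (fun S hS => ?_)
  have hbS : b ∉ S := fun h => hb (Finset.mem_powerset.1 hS h)
  rw [Finset.card_insert_of_notMem hbS, chi_insert hbS]
  ring

theorem wp_update (r : ℝ) (c : Finset (Fin n) → ℝ) (B : Finset (Fin n)) (x : Fin n → ℤˣ)
    (b : Fin n) (hb : b ∉ B) (u : ℤˣ) :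
    wp r c B (Function.update x b u) = wp r c B x := by
  unfold wp
  refine Finset.sum_congr rfl (fun S hS => ?_)
  have hbS : b ∉ S := fun h => hb (Finset.mem_powerset.1 hS h)
  rw [chi_update_of_notMem hbS]

/-- flipping one coordinate -/
def flip (b : Fin n) (x : Fin n → ℤˣ) : Fin n → ℤˣ := Function.update x b (-(x b))

theorem flip_flip (b : Fin n) (x : Fin n → ℤˣ) : flip b (flip b x) = x := by
  unfold flip
  rw [Function.update_self, Function.update_idem, neg_neg, Function.update_eq_self]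

/-- the flip as a permutation -/
def flipE (b : Fin n) : Equiv.Perm (Fin n → ℤˣ) where
  toFun := flip b
  invFun := flip b
  left_inv := flip_flip b
  right_inv := flip_flip b

theorem av_flip_zero (b : Fin n) (g : (Fin n → ℤˣ) → ℝ)
    (h : ∀ x, g (Function.update x b (-(x b))) = - g x) : av g = 0 := by
  have h1 : ∑ x, g (flipE b x) = ∑ x, g x := Equiv.sum_comp (flipE b) g
  have h2 : ∑ x, g (flipE b x) = - ∑ x, g x := by
    rw [← Finset.sum_neg_distrib]
    exact Finset.sum_congr rfl fun x _ => h x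
  unfold av
  have : ∑ x, g x = 0 := by linarith
  rw [this, zero_div]

/-- Bonami's inequality -/
theorem bonami (r : ℝ) (hr : r ^ 2 = 1 / 3) (B : Finset (Fin n)) : ∀ c : Finset (Fin n) → ℝ,
    av (fun x => wp r c B x ^ 4) ≤ (∑ S ∈ B.powerset, c S ^ 2) ^ 2 := by
  induction B using Finset.induction_on with
  | empty =>
    intro c
    have h1 : ∀ x, wp r c ∅ x ^ 4 = c ∅ ^ 4 := by
      intro x
      simp [wp, chi_empty]
    simp_rw [h1]
    rw [av_const]
    simp
    apply le_of_eq
    ring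
  | insert b B hb ih =>
    intro c
    set G : (Fin n → ℤˣ) → ℝ := fun x => wp r c B x with hG
    set H : (Fin n → ℤˣ) → ℝ := fun x => wp r (fun S => c (insert b S)) B x with hH
    set g := ∑ S ∈ B.powerset, c S ^ 2 with hg
    set h := ∑ S ∈ B.powerset, c (insert b S) ^ 2 with hh
    have hg0 : 0 ≤ g := Finset.sum_nonneg (fun S _ => sq_nonneg _)
    have hh0 : 0 ≤ h := Finset.sum_nonneg (fun S _ => sq_nonneg _)
    have iG : av (fun x => G x ^ 4) ≤ g ^ 2 := ih c
    have iH : av (fun x => H x ^ 4) ≤ h ^ 2 := ih (fun S => c (insert b S))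
    have hexp : ∀ x, wp r c (insert b B) x ^ 4 = G x ^ 4 + (2 * (G x ^ 2 * H x ^ 2) +
        (1 / 9 * H x ^ 4 + ((4 * r) * (G x ^ 3 * H x * sv (x b)) +
          (4 * r ^ 3) * (G x * H x ^ 3 * sv (x b))))) := by
      intro x
      rw [wp_insert r c B x b hb]
      have h1 := sv_sq (x b)
      have h5 : sv (x b) ^ 3 = sv (x b) := by
        calc sv (x b) ^ 3 = sv (x b) ^ 2 * sv (x b) := by ring
          _ = sv (x b) := by rw [h1]; ring
      have h6 : sv (x b) ^ 4 = 1 := by
        calc sv (x b) ^ 4 = (sv (x b) ^ 2) ^ 2 := by ring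
          _ = 1 := by rw [h1]; ring
      have h7 : r ^ 4 = 1 / 9 := by
        calc r ^ 4 = (r ^ 2) ^ 2 := by ring
          _ = 1 / 9 := by rw [hr]; norm_num
      show (G x + r * (sv (x b) * H x)) ^ 4 = _
      have e1 : (G x + r * (sv (x b) * H x)) ^ 4 = G x ^ 4 + 4 * r * (G x ^ 3 * H x * sv (x b)) +
          6 * r ^ 2 * sv (x b) ^ 2 * (G x ^ 2 * H x ^ 2) +
          4 * r ^ 3 * (G x * H x ^ 3 * sv (x b) ^ 3) +
          r ^ 4 * sv (x b) ^ 4 * H x ^ 4 := by ring
      rw [e1, h1, h5, h6, h7, hr]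
      ring
    simp_rw [hexp]
    rw [av_add, av_add, av_add, av_add, av_mul, av_mul, av_mul, av_mul]
    have z1 : av (fun x => G x ^ 3 * H x * sv (x b)) = 0 := by
      apply av_flip_zero b
      intro x
      simp only [hG, hH]
      rw [wp_update r c B x b hb, wp_update r _ B x b hb, Function.update_self, sv_neg]
      ring
    have z2 : av (fun x => G x * H x ^ 3 * sv (x b)) = 0 := by
      apply av_flip_zero b
      intro x
      simp only [hG, hH]
      rw [wp_update r c B x b hb, wp_update r _ B x b hb, Function.update_self, sv_neg]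
      ring
    rw [z1, z2]
    have hcs := av_cs (fun x => G x ^ 2) (fun x => H x ^ 2)
    have h6 : (fun x => (G x ^ 2) ^ 2) = fun x => G x ^ 4 := by
      funext x; rw [← pow_mul]
    have h7 : (fun x => (H x ^ 2) ^ 2) = fun x => H x ^ 4 := by
      funext x; rw [← pow_mul]
    rw [h6, h7] at hcs
    have hG4 : 0 ≤ av (fun x => G x ^ 4) := av_nonneg (fun x => by positivity)
    have hH4 : 0 ≤ av (fun x => H x ^ 4) := av_nonneg (fun x => by positivity)
    have hmix : av (fun x => G x ^ 2 * H x ^ 2) ≤ g * h := by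
      apply abs_le_of_sq_le_sq' _ (mul_nonneg hg0 hh0) |>.2
      calc av (fun x => G x ^ 2 * H x ^ 2) ^ 2 ≤ av (fun x => G x ^ 4) * av (fun x => H x ^ 4) := hcs
        _ ≤ g ^ 2 * h ^ 2 := mul_le_mul iG iH hH4 (sq_nonneg _)
        _ = (g * h) ^ 2 := by ring
    have hsum : ∑ S ∈ (insert b B).powerset, c S ^ 2 = g + h := by
      rw [Finset.sum_powerset_insert hb]
    rw [hsum]
    nlinarith [sq_nonneg h]

/-- The noisy second moment is at most the product of the first and the second norm. -/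
theorem noisy_le (g : (Fin n → ℤˣ) → ℝ) :
    ∑ S : Finset (Fin n), (1 / 3 : ℝ) ^ S.card * fc g S ^ 2 ≤
      av (fun x => |g x|) * Real.sqrt (av (fun x => g x ^ 2)) := by
  obtain ⟨r, hr0, hr⟩ : ∃ r : ℝ, 0 ≤ r ∧ r ^ 2 = 1 / 3 :=
    ⟨Real.sqrt (1 / 3), Real.sqrt_nonneg _, Real.sq_sqrt (by norm_num)⟩
  set L := ∑ S : Finset (Fin n), (1 / 3 : ℝ) ^ S.card * fc g S ^ 2 with hL
  set v := av (fun x => g x ^ 2) with hv
  set u := av (fun x => |g x|) with hu
  set l : (Fin n → ℤˣ) → ℝ := fun x => wp r (fun S => r ^ S.card * fc g S) univ x with hl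
  have hLnn : 0 ≤ L := Finset.sum_nonneg (fun k _ => mul_nonneg (by positivity) (sq_nonneg _))
  have hvnn : 0 ≤ v := av_nonneg (fun x => sq_nonneg _)
  have hunn : 0 ≤ u := av_nonneg (fun x => abs_nonneg _)
  have hpow : ∀ m : ℕ, r ^ m * r ^ m = (1 / 3 : ℝ) ^ m := by
    intro m
    rw [← mul_pow, ← sq, hr]
  have h1 : av (fun x => g x * l x) = L := by
    have h2 : ∀ x, l x = ∑ S : Finset (Fin n), ((1 / 3 : ℝ) ^ S.card * fc g S) * chi S x := by
      intro x
      rw [hl]
      simp only [wp]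
      rw [Finset.powerset_univ]
      refine Finset.sum_congr rfl (fun S _ => ?_)
      rw [← hpow S.card]
      ring
    simp_rw [h2]
    rw [av_mul_poly, hL]
    refine Finset.sum_congr rfl (fun S _ => ?_)
    ring
  have h4 : av (fun x => l x ^ 4) ≤ L ^ 2 := by
    have h5 := bonami r hr (univ : Finset (Fin n)) (fun S => r ^ S.card * fc g S)
    have h6 : ∑ S ∈ (univ : Finset (Fin n)).powerset, (r ^ S.card * fc g S) ^ 2 = L := by
      rw [hL, Finset.powerset_univ]
      refine Finset.sum_congr rfl (fun S _ => ?_)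
      rw [← hpow S.card]
      ring
    rw [h6] at h5
    exact h5
  -- first Cauchy-Schwarz
  set W := av (fun x => |g x| * l x ^ 2) with hW
  have hWnn : 0 ≤ W := av_nonneg (fun x => mul_nonneg (abs_nonneg _) (sq_nonneg _))
  have c1 : L ^ 2 ≤ u * W := by
    have h5 := av_cs (fun x => Real.sqrt |g x|) (fun x => Real.sqrt |g x| * |l x|)
    have h6 : (fun x => Real.sqrt |g x| ^ 2) = fun x => |g x| := by
      funext x
      exact Real.sq_sqrt (abs_nonneg _)
    have h7 : (fun x => (Real.sqrt |g x| * |l x|) ^ 2) = fun x => |g x| * l x ^ 2 := by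
      funext x
      rw [mul_pow, Real.sq_sqrt (abs_nonneg _), sq_abs]
    rw [h6, h7] at h5
    have h8 : L ≤ av (fun x => Real.sqrt |g x| * (Real.sqrt |g x| * |l x|)) := by
      rw [← h1]
      apply av_mono
      intro x
      rw [← mul_assoc, Real.mul_self_sqrt (abs_nonneg _), ← abs_mul]
      exact le_abs_self _
    exact (pow_le_pow_left₀ hLnn h8 2).trans h5
  have c2 : W ^ 2 ≤ v * L ^ 2 := by
    have h5 := av_cs (fun x => |g x|) (fun x => l x ^ 2)
    have h6 : (fun x => |g x| ^ 2) = fun x => g x ^ 2 := by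
      funext x
      exact sq_abs _
    have h7 : (fun x => (l x ^ 2) ^ 2) = fun x => l x ^ 4 := by
      funext x
      rw [← pow_mul]
    rw [h6, h7] at h5
    exact h5.trans (mul_le_mul_of_nonneg_left h4 hvnn)
  rcases hLnn.eq_or_lt with h0 | hpos
  · rw [← h0]
    exact mul_nonneg hunn (Real.sqrt_nonneg _)
  · have c3 : L ^ 2 * L ^ 2 ≤ u ^ 2 * v * L ^ 2 := by
      calc L ^ 2 * L ^ 2 ≤ (u * W) * (u * W) :=
            mul_le_mul c1 c1 (sq_nonneg _) (mul_nonneg hunn hWnn)
        _ = u ^ 2 * W ^ 2 := by ring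
        _ ≤ u ^ 2 * (v * L ^ 2) := mul_le_mul_of_nonneg_left c2 (sq_nonneg _)
        _ = u ^ 2 * v * L ^ 2 := by ring
    have hL2 : 0 < L ^ 2 := by positivity
    have c4 : L ^ 2 ≤ u ^ 2 * v := le_of_mul_le_mul_right c3 hL2
    have c5 : L ^ 2 ≤ (u * Real.sqrt v) ^ 2 := by
      rw [mul_pow, Real.sq_sqrt hvnn]
      exact c4
    exact (abs_le_of_sq_le_sq' c5 (mul_nonneg hunn (Real.sqrt_nonneg _))).2

end Pool.Agent.H72x.AA
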