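import Mathlib
import Pool.Agent.H72x.AA.Cube
import Pool.Agent.H72x.AA.Hyper
import Pool.Agent.H72x.AA.Markov

/-!
Assembly: the weighted inequality, its low level form and its energy form.
-/

set_option autoImplicit false

namespace Pool.Agent.H72x.AA

open Finset

variable {n : ℕ}

theorem main_ineq (f : (Fin n → ℤˣ) → ℝ) (d : ℕ) (hd : ∀ S : Finset (Fin n), d < S.card →
    fc f S = 0) (B : ℝ) (hB : ∀ x, |f x| ≤ B) (M : ℝ) (hM0 : 0 ≤ M)
    (hM : ∀ j, Real.sqrt (av (fun x => dd j f x ^ 2)) ≤ M) :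
    ∑ S : Finset (Fin n), (S.card : ℝ) * (1 / 3) ^ (S.card - 1) * fc f S ^ 2 ≤
      2 * (d : ℝ) ^ 2 * B * M := by
  rw [← sum_sum_dd f (fun k => (1 / 3 : ℝ) ^ k)]
  calc ∑ j, ∑ S : Finset (Fin n), (1 / 3 : ℝ) ^ S.card * fc (dd j f) S ^ 2
      ≤ ∑ j, av (fun x => |dd j f x|) * M := by
        refine Finset.sum_le_sum fun j _ => ?_
        exact (noisy_le (dd j f)).trans
          (mul_le_mul_of_nonneg_left (hM j) (av_nonneg fun x => abs_nonneg _))
    _ = av (fun x => ∑ j, |dd j f x|) * M := by rw [← Finset.sum_mul, ← av_sum]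
    _ ≤ (2 * (d : ℝ) ^ 2 * B) * M := by
        refine mul_le_mul_of_nonneg_right ?_ hM0
        calc av (fun x => ∑ j, |dd j f x|) ≤ av (fun _ : Fin n → ℤˣ => 2 * (d : ℝ) ^ 2 * B) :=
              av_mono fun x => sum_abs_dd_le f d hd B hB x
          _ = _ := av_const _

/-- degree one -/
theorem deg_one (f : (Fin n → ℤˣ) → ℝ) (hd : ∀ S : Finset (Fin n), 1 < S.card →
    fc f S = 0) (B : ℝ) (hB : ∀ x, |f x| ≤ B) (M : ℝ) (hM0 : 0 ≤ M)
    (hM : ∀ j, Real.sqrt (av (fun x => dd j f x ^ 2)) ≤ M) :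
    ∑ S : Finset (Fin n), (if S = ∅ then 0 else fc f S ^ 2) ≤ B * M := by
  have hconst : ∀ j x, dd j f x = fc f {j} := by
    intro j x
    rw [dd_eq, Finset.sum_eq_single {j}]
    · simp [chi_empty]
    · intro S _ hS
      by_cases h : j ∈ S
      · rw [if_pos h]
        have : 1 < S.card := by
          rcases Nat.lt_or_ge 1 S.card with h1 | h1
          · exact h1
          · exfalso
            apply hS
            have h2 : S.card = 1 := le_antisymm h1 (Finset.card_pos.2 ⟨j, h⟩)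
            obtain ⟨a, ha⟩ := Finset.card_eq_one.1 h2
            rw [ha] at h ⊢
            rw [Finset.mem_singleton.1 h]
        rw [hd S this, zero_mul]
      · rw [if_neg h]
    · simp
  have hM' : ∀ j : Fin n, |fc f {j}| ≤ M := by
    intro j
    have := hM j
    simp only [hconst] at this
    rw [av_const, Real.sqrt_sq_eq_abs] at this
    exact this
  have hsum : ∑ j : Fin n, |fc f {j}| ≤ B := by
    have h1 := sum_signed_le f 1 hd B hB (fun j => if 0 ≤ fc f {j} then 1 else -1) univ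
    simp only [hconst] at h1
    have h2 : ∀ j : Fin n, sv (if 0 ≤ fc f {j} then 1 else -1) * fc f {j} = |fc f {j}| := by
      intro j
      by_cases h : 0 ≤ fc f {j}
      · rw [if_pos h, sv_one, one_mul, abs_of_nonneg h]
      · rw [if_neg h, sv_neg_one, abs_of_neg (not_le.1 h)]; ring
    simp only [h2] at h1
    simpa using h1
  have hrew : ∑ S : Finset (Fin n), (if S = ∅ then 0 else fc f S ^ 2) =
      ∑ j : Fin n, fc f {j} ^ 2 := by
    have h3 : ∀ S : Finset (Fin n), (if S = ∅ then 0 else fc f S ^ 2) =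
        if S.card = 1 then fc f S ^ 2 else 0 := by
      intro S
      by_cases h0 : S = ∅
      · simp [h0]
      · rw [if_neg h0]
        by_cases h1 : S.card = 1
        · rw [if_pos h1]
        · rw [if_neg h1, hd S]
          · ring
          · have := Finset.card_pos.2 (Finset.nonempty_iff_ne_empty.2 h0)
            omega
    rw [Finset.sum_congr rfl fun S _ => h3 S, ← Finset.sum_filter]
    symm
    refine Finset.sum_nbij (fun j => {j}) ?_ ?_ ?_ ?_
    · intro j _; simp
    · intro i _ j _ hij; simpa using hij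
    · intro S hS
      have h4 : S.card = 1 := by simpa using hS
      obtain ⟨a, ha⟩ := Finset.card_eq_one.1 h4
      exact ⟨a, by simp, ha.symm⟩
    · intro j _; rfl
  rw [hrew]
  calc ∑ j : Fin n, fc f {j} ^ 2 ≤ ∑ j : Fin n, |fc f {j}| * M := by
        refine Finset.sum_le_sum fun j _ => ?_
        rw [← sq_abs, sq]
        exact mul_le_mul_of_nonneg_left (hM' j) (abs_nonneg _)
    _ = (∑ j : Fin n, |fc f {j}|) * M := by rw [Finset.sum_mul]
    _ ≤ B * M := mul_le_mul_of_nonneg_right hsum hM0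

theorem var_eq (f : (Fin n → ℤˣ) → ℝ) :
    av (fun x => f x ^ 2) - av f ^ 2 = ∑ S : Finset (Fin n), (if S = ∅ then 0 else fc f S ^ 2) := by
  rw [parseval]
  have h1 : av f = fc f ∅ := by
    unfold fc; congr 1; funext x; rw [chi_empty, mul_one]
  rw [h1, sub_eq_iff_eq_add]
  have h2 : fc f ∅ ^ 2 = ∑ S : Finset (Fin n), (if S = ∅ then fc f S ^ 2 else 0) := by
    rw [Finset.sum_ite_eq' univ ∅]
    simp
  rw [h2, ← Finset.sum_add_distrib]
  refine Finset.sum_congr rfl fun S _ => ?_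
  by_cases h : S = ∅ <;> simp [h]

theorem tot_eq (f : (Fin n → ℤˣ) → ℝ) :
    ∑ j, av (fun x => dd j f x ^ 2) = ∑ S : Finset (Fin n), (S.card : ℝ) * fc f S ^ 2 := by
  have h := sum_sum_dd f (fun _ => (1 : ℝ))
  simp only [one_mul, mul_one] at h
  rw [← h]
  refine Finset.sum_congr rfl fun j _ => ?_
  rw [parseval]

/-- convexity: the energy form -/
theorem energy_form (f : (Fin n → ℤˣ) → ℝ) (V I R : ℝ)
    (hV : V = ∑ S : Finset (Fin n), (if S = ∅ then 0 else fc f S ^ 2))
    (hI : I = ∑ S : Finset (Fin n), (S.card : ℝ) * fc f S ^ 2)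
    (hR : ∑ S : Finset (Fin n), (S.card : ℝ) * (1 / 3) ^ (S.card - 1) * fc f S ^ 2 ≤ R) :
    V ≤ (3 : ℝ) ^ (I / V - 1) * R := by
  have hR0 : 0 ≤ R := le_trans (Finset.sum_nonneg fun S _ => by positivity) hR
  have hV0 : 0 ≤ V := by
    rw [hV]
    refine Finset.sum_nonneg fun S _ => ?_
    by_cases h : S = ∅ <;> simp [h]; positivity
  rcases hV0.eq_or_lt with h0 | hpos
  · rw [← h0]; positivity
  set m := I / V with hm
  have hmV : m * V = I := by rw [hm]; field_simp
  set q : ℝ := (3 : ℝ) ^ (-(m - 1)) with hq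
  have hq0 : 0 < q := by positivity
  -- tangent line
  have htan : ∀ k : ℕ, 1 ≤ k → q * (1 - ((k : ℝ) - m) * Real.log 3) ≤ (k : ℝ) * (1 / 3) ^ (k - 1) := by
    intro k hk
    have h1 : ((1 / 3 : ℝ)) ^ (k - 1) = (3 : ℝ) ^ (-((k : ℝ) - 1)) := by
      rw [Real.rpow_neg (by norm_num), one_div, inv_pow]
      congr 1
      rw [← Real.rpow_natCast, Nat.cast_sub hk]
      simp
    have h2 : (3 : ℝ) ^ (-((k : ℝ) - 1)) = q * Real.exp (-(((k : ℝ) - m) * Real.log 3)) := by
      rw [hq, Real.rpow_def_of_pos (by norm_num), Real.rpow_def_of_pos (by norm_num),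
        ← Real.exp_add]
      congr 1
      ring
    have h3 : 1 - ((k : ℝ) - m) * Real.log 3 ≤ Real.exp (-(((k : ℝ) - m) * Real.log 3)) := by
      have := Real.add_one_le_exp (-(((k : ℝ) - m) * Real.log 3))
      linarith
    have h4 : (3 : ℝ) ^ (-((k : ℝ) - 1)) ≤ (k : ℝ) * (3 : ℝ) ^ (-((k : ℝ) - 1)) := by
      have hk1 : (1 : ℝ) ≤ k := by exact_mod_cast hk
      have : 0 ≤ (3 : ℝ) ^ (-((k : ℝ) - 1)) := by positivity
      nlinarith
    rw [h1]
    refine le_trans ?_ h4
    rw [h2]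
    exact mul_le_mul_of_nonneg_left h3 hq0.le
  have hlow : q * V ≤ ∑ S : Finset (Fin n), (S.card : ℝ) * (1 / 3) ^ (S.card - 1) * fc f S ^ 2 := by
    have h1 : q * V = ∑ S : Finset (Fin n),
        (if S = ∅ then 0 else q * (1 - ((S.card : ℝ) - m) * Real.log 3) * fc f S ^ 2) := by
      have h2 : ∀ S : Finset (Fin n),
          (if S = ∅ then 0 else q * (1 - ((S.card : ℝ) - m) * Real.log 3) * fc f S ^ 2) =
          (q + q * m * Real.log 3) * (if S = ∅ then 0 else fc f S ^ 2) -
            (q * Real.log 3) * ((S.card : ℝ) * fc f S ^ 2) := by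
        intro S
        by_cases h : S = ∅
        · simp [h]
        · simp only [if_neg h]; ring
      simp only [h2]
      rw [Finset.sum_sub_distrib, ← Finset.mul_sum, ← Finset.mul_sum, ← hV, ← hI, ← hmV]
      ring
    rw [h1]
    refine Finset.sum_le_sum fun S _ => ?_
    by_cases h : S = ∅
    · simp [h]
    · rw [if_neg h]
      exact mul_le_mul_of_nonneg_right
        (htan S.card (Finset.card_pos.2 (Finset.nonempty_iff_ne_empty.2 h))) (sq_nonneg _)
  have hqR : q * V ≤ R := hlow.trans hR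
  have h5 : (3 : ℝ) ^ (m - 1) = q⁻¹ := by
    rw [hq, Real.rpow_neg (by norm_num), inv_inv]
  rw [h5, inv_mul_eq_div, le_div_iff₀ hq0]
  linarith

end Pool.Agent.H72x.AA
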