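import Mathlib
import Pool.Agent.H72x.AA.Main
import Pool.Agent.H72x.AA.Defs

/-!
The low level and low energy forms, in terms of the definitions of `Defs.lean`.
-/

set_option autoImplicit false

namespace Pool.Agent.H72x.AAD

open Pool.Agent.H72x.AA

theorem coeff_eq {n : ℕ} (f : (Fin n → ℤˣ) → ℝ) (S : Finset (Fin n)) : coeff f S = fc f S := rfl

theorem infl_eq {n : ℕ} (f : (Fin n → ℤˣ) → ℝ) (j : Fin n) :
    infl f j = av (fun x => dd j f x ^ 2) := rfl

theorem variance_eq {n : ℕ} (f : (Fin n → ℤˣ) → ℝ) :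
    variance f = ∑ S : Finset (Fin n), (if S = ∅ then 0 else fc f S ^ 2) := var_eq f

theorem le_supNorm {n : ℕ} (f : (Fin n → ℤˣ) → ℝ) (x : Fin n → ℤˣ) : |f x| ≤ supNorm f :=
  le_ciSup (f := fun x => |f x|) (Set.finite_range _).bddAbove x

theorem le_maxDer {n : ℕ} (f : (Fin n → ℤˣ) → ℝ) (j : Fin n) :
    Real.sqrt (infl f j) ≤ maxDer f :=
  le_ciSup (f := fun j => Real.sqrt (infl f j)) (Set.finite_range _).bddAbove j

theorem supNorm_nonneg {n : ℕ} (f : (Fin n → ℤˣ) → ℝ) : 0 ≤ supNorm f :=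
  Real.iSup_nonneg fun _ => abs_nonneg _

theorem maxDer_nonneg {n : ℕ} (f : (Fin n → ℤˣ) → ℝ) : 0 ≤ maxDer f :=
  Real.iSup_nonneg fun _ => Real.sqrt_nonneg _

theorem weighted {n : ℕ} (f : (Fin n → ℤˣ) → ℝ) (d : ℕ) (hd : DegLE f d) :
    ∑ S : Finset (Fin n), (S.card : ℝ) * (1 / 3) ^ (S.card - 1) * coeff f S ^ 2 ≤
      2 * (d : ℝ) ^ 2 * supNorm f * maxDer f :=
  main_ineq f d hd (supNorm f) (le_supNorm f) (maxDer f) (maxDer_nonneg f) (le_maxDer f)

/-- comparison of the constants -/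
theorem two_le_pow (d : ℕ) (hd : 2 ≤ d) (t : ℝ) :
    2 * (d : ℝ) ^ 2 * (d : ℝ) ^ t ≤ (d : ℝ) ^ (3 + t) := by
  have h2 : (2 : ℝ) ≤ d := by exact_mod_cast hd
  have h0 : (0 : ℝ) < d := by linarith
  rw [Real.rpow_add h0]
  have h3 : (d : ℝ) ^ (3 : ℝ) = (d : ℝ) * (d : ℝ) ^ 2 := by
    rw [show (3 : ℝ) = ((3 : ℕ) : ℝ) by norm_num, Real.rpow_natCast]; ring
  rw [h3]
  have : 0 ≤ (d : ℝ) ^ t := by positivity
  gcongr

theorem low_levels (K : ℝ) (_hK : 0 ≤ K) (n : ℕ) (f : (Fin n → ℤˣ) → ℝ) (d : ℕ)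
    (hd : DegLE f d) :
    ∑ S : Finset (Fin n) with 1 ≤ S.card ∧ (S.card : ℝ) ≤ 1 + K * Real.log d, coeff f S ^ 2 ≤
      supNorm f * (d : ℝ) ^ (3 + K * Real.log 3) * maxDer f := by
  have hB0 := supNorm_nonneg f
  have hM0 := maxDer_nonneg f
  rcases Nat.lt_or_ge d 2 with h2 | h2
  · -- degree at most one
    have hd1 : ∀ S : Finset (Fin n), 1 < S.card → fc f S = 0 := fun S hS => hd S (by omega)
    have hlow : ∑ S : Finset (Fin n) with 1 ≤ S.card ∧ (S.card : ℝ) ≤ 1 + K * Real.log d,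
        coeff f S ^ 2 ≤ ∑ S : Finset (Fin n), (if S = ∅ then 0 else fc f S ^ 2) := by
      rw [Finset.sum_filter]
      refine Finset.sum_le_sum fun S _ => ?_
      by_cases h : S = ∅
      · simp [h]
      · rw [if_neg h, coeff_eq]
        split_ifs
        · exact le_rfl
        · positivity
    rcases Nat.lt_or_ge d 1 with h1 | h1
    · have h0 : d = 0 := by omega
      subst h0
      have hz : ∑ S : Finset (Fin n), (if S = ∅ then 0 else fc f S ^ 2) = 0 := by
        refine Finset.sum_eq_zero fun S _ => ?_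
        by_cases h : S = ∅
        · simp [h]
        · rw [if_neg h, ← coeff_eq,
            hd S (Finset.card_pos.2 (Finset.nonempty_iff_ne_empty.2 h))]
          ring
      rw [hz] at hlow
      refine hlow.trans ?_
      positivity
    · have h1' : d = 1 := by omega
      subst h1'
      refine hlow.trans ?_
      have := deg_one f hd1 (supNorm f) (le_supNorm f) (maxDer f) hM0 (le_maxDer f)
      simpa using this
  · have hdr : (2 : ℝ) ≤ d := by exact_mod_cast h2
    have hd0 : (0 : ℝ) < d := by linarith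
    have hw := weighted f d hd
    set q : ℝ := (d : ℝ) ^ (K * Real.log 3) with hq
    have hq0 : 0 < q := by positivity
    have hterm : ∀ S : Finset (Fin n), 1 ≤ S.card → (S.card : ℝ) ≤ 1 + K * Real.log d →
        1 ≤ q * ((S.card : ℝ) * (1 / 3) ^ (S.card - 1)) := by
      intro S h1 h3
      have e1 : ((1 / 3 : ℝ)) ^ (S.card - 1) = (3 : ℝ) ^ (-((S.card : ℝ) - 1)) := by
        rw [Real.rpow_neg (by norm_num), one_div, inv_pow]
        congr 1
        rw [← Real.rpow_natCast, Nat.cast_sub h1]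
        simp
      have e2 : q = (3 : ℝ) ^ (K * Real.log d) := by
        rw [hq, Real.rpow_def_of_pos hd0, Real.rpow_def_of_pos (by norm_num)]
        congr 1; ring
      have e3 : (1 : ℝ) ≤ q * (3 : ℝ) ^ (-((S.card : ℝ) - 1)) := by
        rw [e2, ← Real.rpow_add (by norm_num)]
        apply Real.one_le_rpow (by norm_num)
        linarith
      have e4 : (1 : ℝ) ≤ S.card := by exact_mod_cast h1
      rw [e1]
      calc (1 : ℝ) ≤ q * (3 : ℝ) ^ (-((S.card : ℝ) - 1)) := e3
        _ = 1 * (q * (3 : ℝ) ^ (-((S.card : ℝ) - 1))) := by ring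
        _ ≤ (S.card : ℝ) * (q * (3 : ℝ) ^ (-((S.card : ℝ) - 1))) :=
            mul_le_mul_of_nonneg_right e4 (by linarith)
        _ = _ := by ring
    calc ∑ S : Finset (Fin n) with 1 ≤ S.card ∧ (S.card : ℝ) ≤ 1 + K * Real.log d, coeff f S ^ 2
        ≤ ∑ S : Finset (Fin n) with 1 ≤ S.card ∧ (S.card : ℝ) ≤ 1 + K * Real.log d,
            q * ((S.card : ℝ) * (1 / 3) ^ (S.card - 1) * coeff f S ^ 2) := by
          refine Finset.sum_le_sum fun S hS => ?_
          have hS' := (Finset.mem_filter.1 hS).2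
          calc coeff f S ^ 2 = 1 * coeff f S ^ 2 := by ring
            _ ≤ (q * ((S.card : ℝ) * (1 / 3) ^ (S.card - 1))) * coeff f S ^ 2 :=
                mul_le_mul_of_nonneg_right (hterm S hS'.1 hS'.2) (sq_nonneg _)
            _ = _ := by ring
      _ ≤ ∑ S : Finset (Fin n), q * ((S.card : ℝ) * (1 / 3) ^ (S.card - 1) * coeff f S ^ 2) :=
          Finset.sum_le_sum_of_subset_of_nonneg (Finset.filter_subset _ _)
            (fun S _ _ => by positivity)
      _ = q * ∑ S : Finset (Fin n), ((S.card : ℝ) * (1 / 3) ^ (S.card - 1) * coeff f S ^ 2) := by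
          rw [Finset.mul_sum]
      _ ≤ q * (2 * (d : ℝ) ^ 2 * supNorm f * maxDer f) := mul_le_mul_of_nonneg_left hw hq0.le
      _ = supNorm f * (2 * (d : ℝ) ^ 2 * q) * maxDer f := by ring
      _ ≤ supNorm f * (d : ℝ) ^ (3 + K * Real.log 3) * maxDer f := by
          have := two_le_pow d h2 (K * Real.log 3)
          gcongr

theorem energy (K : ℝ) (_hK : 0 ≤ K) (n : ℕ) (f : (Fin n → ℤˣ) → ℝ) (d : ℕ)
    (hd : DegLE f d) (hI : ∑ j, infl f j ≤ (1 + K * Real.log d) * variance f) :
    variance f ≤ supNorm f * (d : ℝ) ^ (3 + K * Real.log 3) * maxDer f := by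
  have hB0 := supNorm_nonneg f
  have hM0 := maxDer_nonneg f
  have hV0 : 0 ≤ variance f := by
    rw [variance_eq]
    refine Finset.sum_nonneg fun S _ => ?_
    by_cases h : S = ∅ <;> simp [h]; positivity
  rcases Nat.lt_or_ge d 2 with h2 | h2
  · have hd1 : ∀ S : Finset (Fin n), 1 < S.card → fc f S = 0 := fun S hS => hd S (by omega)
    rcases Nat.lt_or_ge d 1 with h1 | h1
    · have h0 : d = 0 := by omega
      subst h0
      have hz : variance f = 0 := by
        rw [variance_eq]
        refine Finset.sum_eq_zero fun S _ => ?_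
        by_cases h : S = ∅
        · simp [h]
        · rw [if_neg h, ← coeff_eq,
            hd S (Finset.card_pos.2 (Finset.nonempty_iff_ne_empty.2 h))]
          ring
      rw [hz]
      positivity
    · have h1' : d = 1 := by omega
      subst h1'
      rw [variance_eq]
      have := deg_one f hd1 (supNorm f) (le_supNorm f) (maxDer f) hM0 (le_maxDer f)
      simpa using this
  · have hdr : (2 : ℝ) ≤ d := by exact_mod_cast h2
    have hd0 : (0 : ℝ) < d := by linarith
    have hw := weighted f d hd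
    have hen := energy_form f (variance f) (∑ j, infl f j) _ (variance_eq f) (tot_eq f) hw
    rcases hV0.eq_or_lt with hz | hpos
    · rw [← hz]; positivity
    have h5 : (∑ j, infl f j) / variance f - 1 ≤ K * Real.log d := by
      rw [sub_le_iff_le_add, div_le_iff₀ hpos]
      linarith
    have e2 : (d : ℝ) ^ (K * Real.log 3) = (3 : ℝ) ^ (K * Real.log d) := by
      rw [Real.rpow_def_of_pos hd0, Real.rpow_def_of_pos (by norm_num)]
      congr 1; ring
    calc variance f ≤ (3 : ℝ) ^ ((∑ j, infl f j) / variance f - 1) *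
          (2 * (d : ℝ) ^ 2 * supNorm f * maxDer f) := hen
      _ ≤ (3 : ℝ) ^ (K * Real.log d) * (2 * (d : ℝ) ^ 2 * supNorm f * maxDer f) := by
          apply mul_le_mul_of_nonneg_right _ (by positivity)
          exact Real.rpow_le_rpow_of_exponent_le (by norm_num) h5
      _ = supNorm f * (2 * (d : ℝ) ^ 2 * (d : ℝ) ^ (K * Real.log 3)) * maxDer f := by
          rw [e2]; ring
      _ ≤ supNorm f * (d : ℝ) ^ (3 + K * Real.log 3) * maxDer f := by
          have := two_le_pow d h2 (K * Real.log 3)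
          gcongr

end Pool.Agent.H72x.AAD
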